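import Pool.Agent.H38.TO.S8.TH423.SH.StmB

/-!
The fundamental lemma for an arithmetic progression in an interval.
-/

set_option autoImplicit false

open Finset

namespace Pool.Agent.TH423.SH

namespace FLIP

lemma crt_set (q s : ℕ) (c : ℕ → ℕ) (T : Finset ℕ) (hT : ∀ p ∈ T, p.Prime ∧ ¬ p ∣ q)
    (hc : ∀ p ∈ T, c p < p) : ∃ v : ℕ, ∀ n : ℕ,
    (n % q = s % q ∧ ∀ p ∈ T, n % p = c p) ↔ n ≡ v [MOD q * ∏ p ∈ T, p] := by
  classical
  induction T using Finset.induction_on with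
  | empty =>
    refine ⟨s, fun n => ?_⟩
    rw [prod_empty, mul_one]
    constructor
    · intro h
      exact h.1
    · intro h
      exact ⟨h, fun p hp => absurd hp (Finset.notMem_empty p)⟩
  | insert p T hp ih =>
    obtain ⟨v, hv⟩ := ih (fun r hr => hT r (mem_insert_of_mem hr))
      (fun r hr => hc r (mem_insert_of_mem hr))
    have hpp := hT p (mem_insert_self p T)
    have hcp := hc p (mem_insert_self p T)
    have hcop : Nat.Coprime (q * ∏ r ∈ T, r) p := by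
      apply Nat.Coprime.mul_left
      · exact ((Nat.Prime.coprime_iff_not_dvd hpp.1).2 hpp.2).symm
      · apply Nat.Coprime.prod_left
        intro r hr
        refine (Nat.coprime_primes (hT r (mem_insert_of_mem hr)).1 hpp.1).2 ?_
        rintro rfl
        exact hp hr
    obtain ⟨w, hw1, hw2⟩ := Nat.chineseRemainder hcop v (c p)
    refine ⟨w, fun n => ?_⟩
    rw [prod_insert hp, mul_comm p, ← mul_assoc, ← Nat.modEq_and_modEq_iff_modEq_mul hcop]
    constructor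
    · rintro ⟨h1, h2⟩
      refine ⟨?_, ?_⟩
      · have h3 := (hv n).1 ⟨h1, fun r hr => h2 r (mem_insert_of_mem hr)⟩
        exact h3.trans hw1.symm
      · have h3 := h2 p (mem_insert_self p T)
        have h4 : n ≡ c p [MOD p] := by
          unfold Nat.ModEq
          rw [h3, Nat.mod_eq_of_lt hcp]
        exact h4.trans hw2.symm
    · rintro ⟨h1, h2⟩
      obtain ⟨h3, h4⟩ := (hv n).2 (h1.trans hw1)
      refine ⟨h3, fun r hr => ?_⟩
      rcases mem_insert.1 hr with h5 | h5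
      · subst h5
        have h6 : n ≡ c r [MOD r] := h2.trans hw2
        unfold Nat.ModEq at h6
        rw [h6, Nat.mod_eq_of_lt hcp]
      · exact h4 r h5

lemma cnt_Ioc (a b r v : ℕ) (hab : a ≤ b) (hr : 0 < r) :
    |(((Ioc a b).filter (fun n => n ≡ v [MOD r])).card : ℝ) - ((b : ℝ) - a) / r| ≤ 1 := by
  have h := Nat.Ioc_filter_modEq_card a b hr v
  have hr' : (0 : ℚ) < r := by exact_mod_cast hr
  set x : ℚ := ((b : ℚ) - v) / r with hx
  set y : ℚ := ((a : ℚ) - v) / r with hy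
  have hxy : y ≤ x := by
    rw [hx, hy]
    have : (a : ℚ) ≤ b := by exact_mod_cast hab
    gcongr
  have h1 : ⌊y⌋ ≤ ⌊x⌋ := Int.floor_le_floor hxy
  rw [max_eq_left (sub_nonneg.2 h1)] at h
  have h2 : ((((Ioc a b).filter (fun n => n ≡ v [MOD r])).card : ℤ) : ℚ) =
      ((⌊x⌋ - ⌊y⌋ : ℤ) : ℚ) := by rw [h]
  have h3 : |((((Ioc a b).filter (fun n => n ≡ v [MOD r])).card : ℤ) : ℚ) -
      ((b : ℚ) - a) / r| ≤ 1 := by
    rw [h2]
    have e : ((b : ℚ) - a) / r = x - y := by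
      rw [hx, hy, ← sub_div]
      congr 1
      ring
    rw [e, abs_le]
    push_cast
    constructor
    · linarith [Int.floor_le y, Int.lt_floor_add_one x]
    · linarith [Int.floor_le x, Int.lt_floor_add_one y]
  have h4 := (Rat.cast_le (K := ℝ)).2 h3
  rw [Rat.cast_abs] at h4
  push_cast at h4
  exact h4

/-- the number of sets of primes with bounded product -/
lemma card_le (P : Finset ℕ) (hP : ∀ p ∈ P, p.Prime) (Y : ℕ) :
    (P.powerset.filter (fun T : Finset ℕ => ∏ p ∈ T, p ≤ Y)).card ≤ Y := by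
  have h1 : (P.powerset.filter (fun T : Finset ℕ => ∏ p ∈ T, p ≤ Y)).card ≤ (Icc 1 Y).card := by
    apply card_le_card_of_injOn (fun T => ∏ p ∈ T, p)
    · intro T hT
      rw [mem_coe, mem_filter, mem_powerset] at hT
      rw [mem_coe, mem_Icc]
      exact ⟨Nat.one_le_iff_ne_zero.2 (prod_ne_zero_iff.2 fun p hp => (hP p (hT.1 hp)).ne_zero), hT.2⟩
    · intro T hT T' hT' he
      rw [mem_coe, mem_filter, mem_powerset] at hT hT'
      have h2 := Nat.primeFactors_prod (fun p hp => hP p (hT.1 hp))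
      have h3 := Nat.primeFactors_prod (fun p hp => hP p (hT'.1 hp))
      rw [← h2, ← h3]
      exact congrArg Nat.primeFactors he
  rwa [Nat.card_Icc, Nat.add_sub_cancel] at h1

end FLIP

open FLIP in
theorem fli (h : FLL) : FLI := by
  classical
  obtain ⟨C0, hC0, hF⟩ := h
  refine ⟨2 * C0 + 4, by omega, ?_⟩
  intro κ b W q hb hW hWp hq u v J a huv hPq Om hOm
  set P := PS W (2 ^ 2 ^ J) with hP
  have hPmem : ∀ p ∈ P, p.Prime ∧ (2 * C0 + 4) * (κ + 1) < p ∧ p ≤ 2 ^ 2 ^ J := by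
    intro p hp
    rw [hP, PS, mem_filter, mem_Icc] at hp
    refine ⟨hp.2.1, ?_, hp.1.2⟩
    by_contra hcon
    exact hp.2.2 (hWp p hp.2.1 (not_lt.1 hcon))
  have hC : C0 * (κ + 1) ≤ (2 * C0 + 4) * (κ + 1) := Nat.mul_le_mul_right _ (by omega)
  have huv' : (u : ℝ) ≤ v := by exact_mod_cast huv
  have hq' : (0 : ℝ) < q := by exact_mod_cast hq
  have hA : 0 ≤ ((v : ℝ) - u) / q := div_nonneg (by linarith) hq'.le
  have h1 := hF κ b J ((2 * C0 + 4) * (κ + 1)) P (fun p => 1 / (p : ℝ)) Om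
    (hC.trans hb) hC hPmem (fun p hp => (hOm p hp).1.le)
    (by
      intro p hp
      have hp2 : (2 : ℝ) ≤ p := by exact_mod_cast (hPmem p hp).1.two_le
      refine ⟨by positivity, ?_⟩
      apply one_div_le_one_div_of_le (by linarith)
      linarith)
    ((Ioc u v).filter (fun n => n % q = a % q)) (fun _ => 1) (((v : ℝ) - u) / q) (fun _ => 1)
    (fun _ _ => zero_le_one) hA (fun _ => zero_le_one)
    (by
      intro T hT _ c hc
      obtain ⟨r, hr⟩ := crt_set q a c T (fun p hp => ⟨(hPmem p (hT hp)).1, hPq p (hT hp)⟩)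
        (fun p hp => (hOm p (hT hp)).2 _ (hc p hp))
      rw [sum_const, nsmul_eq_mul, mul_one, filter_filter]
      have e1 : (Ioc u v).filter (fun n => n % q = a % q ∧ ∀ p ∈ T, n % p = c p) =
          (Ioc u v).filter (fun n => n ≡ r [MOD q * ∏ p ∈ T, p]) :=
        filter_congr fun n _ => hr n
      have hpos : 0 < q * ∏ p ∈ T, p :=
        Nat.mul_pos hq (Finset.prod_pos fun p hp => (hPmem p (hT hp)).1.pos)
      have h2 := cnt_Ioc u v (q * ∏ p ∈ T, p) r huv hpos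
      rw [e1]
      have e2 : ((v : ℝ) - u) / ((q * ∏ p ∈ T, p : ℕ) : ℝ) =
          ((v : ℝ) - u) / q * ∏ p ∈ T, 1 / (p : ℝ) := by
        push_cast
        rw [← div_div, div_eq_mul_inv _ (∏ p ∈ T, (p : ℝ)), ← prod_inv_distrib]
        simp only [one_div]
      rw [e2] at h2
      exact h2)
  have e3 : ∏ p ∈ P, (1 - ((Om p).card : ℝ) * (1 / (p : ℝ))) = PIj W (2 ^ 2 ^ J) κ := by
    unfold PIj
    apply prod_congr rfl
    intro p hp
    rw [(hOm p hp).1, mul_one_div]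
  rw [e3, sum_const, nsmul_eq_mul, mul_one, filter_filter] at h1
  set Y : ℕ := (2 ^ 2 ^ J) ^ (C0 * b) with hY
  suffices hs : ((J : ℝ) + 2) * ∑ T ∈ P.powerset.filter (fun T : Finset ℕ => ∏ p ∈ T, p ≤ Y),
      (κ : ℝ) ^ T.card * 1 ≤ ((2 : ℝ) ^ 2 ^ J) ^ ((2 * C0 + 4) * b) by
    have key := h1.trans (add_le_add le_rfl hs)
    refine le_trans (le_of_eq ?_) key
    congr!
  have hterm : ∀ T ∈ P.powerset.filter (fun T : Finset ℕ => ∏ p ∈ T, p ≤ Y),
      ((κ : ℝ) ^ T.card * 1) ≤ (Y : ℝ) := by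
    intro T hT
    rw [mem_filter, mem_powerset] at hT
    rw [mul_one]
    have h2 : κ ^ T.card ≤ ∏ p ∈ T, p := by
      rw [← prod_const]
      apply prod_le_prod'
      intro p hp
      have h3 := (hPmem p (hT.1 hp)).2.1
      have h4 : κ + 1 ≤ (2 * C0 + 4) * (κ + 1) := Nat.le_mul_of_pos_left _ (by omega)
      omega
    exact_mod_cast h2.trans hT.2
  have hJ : (J : ℝ) + 2 ≤ ((2 : ℝ) ^ 2 ^ J) ^ 2 := by
    have h2 : J + 2 ≤ (2 ^ 2 ^ J) ^ 2 := by
      have h3 : J < 2 ^ J := Nat.lt_two_pow_self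
      have h4 : 2 ^ J < 2 ^ 2 ^ J := Nat.lt_two_pow_self
      have h5 : 2 ≤ 2 ^ 2 ^ J := by
        calc 2 = 2 ^ 1 := rfl
          _ ≤ 2 ^ 2 ^ J := Nat.pow_le_pow_right (by norm_num) (Nat.one_le_two_pow)
      nlinarith
    exact_mod_cast h2
  have hb4 : 4 ≤ 4 * b := by
    have : 1 ≤ (2 * C0 + 4) * (κ + 1) := Nat.mul_pos (by omega) (by omega)
    omega
  have hone : (1 : ℝ) ≤ (2 : ℝ) ^ 2 ^ J := one_le_pow₀ (by norm_num)
  calc ((J : ℝ) + 2) * ∑ T ∈ P.powerset.filter (fun T : Finset ℕ => ∏ p ∈ T, p ≤ Y),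
        (κ : ℝ) ^ T.card * 1
      ≤ ((J : ℝ) + 2) * ((Y : ℝ) ^ 2) := by
        apply mul_le_mul_of_nonneg_left _ (by positivity)
        calc ∑ T ∈ P.powerset.filter (fun T : Finset ℕ => ∏ p ∈ T, p ≤ Y), (κ : ℝ) ^ T.card * 1
            ≤ ∑ _T ∈ P.powerset.filter (fun T : Finset ℕ => ∏ p ∈ T, p ≤ Y), (Y : ℝ) :=
              sum_le_sum hterm
          _ = ((P.powerset.filter (fun T : Finset ℕ => ∏ p ∈ T, p ≤ Y)).card : ℝ) * Y := by
              rw [sum_const, nsmul_eq_mul]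
          _ ≤ (Y : ℝ) * Y := by
              apply mul_le_mul_of_nonneg_right _ (by positivity)
              exact_mod_cast card_le P (fun p hp => (hPmem p hp).1) Y
          _ = (Y : ℝ) ^ 2 := by ring
    _ ≤ ((2 : ℝ) ^ 2 ^ J) ^ 2 * (Y : ℝ) ^ 2 := by
        apply mul_le_mul_of_nonneg_right hJ (by positivity)
    _ = ((2 : ℝ) ^ 2 ^ J) ^ (2 + 2 * (C0 * b)) := by
        rw [hY]
        push_cast
        rw [pow_add, mul_comm 2 (C0 * b), pow_mul _ (C0 * b) 2]
    _ ≤ ((2 : ℝ) ^ 2 ^ J) ^ ((2 * C0 + 4) * b) := by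
        apply pow_le_pow_right₀ hone
        have : (2 * C0 + 4) * b = 2 * (C0 * b) + 4 * b := by ring
        omega

end Pool.Agent.TH423.SH
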