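import Pool.Agent.H38.TO.S8.TH423.SH.Stm

/-!
Second level statements of the shape lemma (helper423).
-/

set_option autoImplicit false

open Finset

namespace Pool.Agent.TH423.SH

/-- `∏ (1 - j / p)` over the primes `p ≤ R`, `p ∤ W` -/
noncomputable def PIj (W R j : ℕ) : ℝ := ∏ p ∈ PS W R, (1 - (j : ℝ) / (p : ℝ))

/-- `∏ (1 - j / (p - 1))` over the primes `p ≤ R`, `p ∤ W` -/
noncomputable def PI1 (W R j : ℕ) : ℝ := ∏ p ∈ PS W R, (1 - (j : ℝ) / ((p : ℝ) - 1))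

open Classical in
/-- the sieved pairs `(x, y)` -/
noncomputable def SZ (W m R X Y : ℕ) : Finset (ℕ × ℕ) :=
  ((Ioc X (2 * X)) ×ˢ (Ioc Y (2 * Y))).filter (fun z => z.2 % W = 1 % W ∧
    ∀ p ∈ PS W R, ¬ p ∣ z.1 ∧ ∀ l < m, ¬ p ∣ z.2 - W * (l + 1) * z.1)

/-- `n ≡ 1 (mod W)` is a member of `E` times a prime -/
def inA (W : ℕ) (E : Finset ℕ) (n : ℕ) : Prop :=
  n % W = 1 % W ∧ ∃ e ∈ E, ∃ p : ℕ, p.Prime ∧ n = e * p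

/-- `α_E = ∑ 1 / (e log (Y / e))` -/
noncomputable def al (E : Finset ℕ) (Y : ℕ) : ℝ :=
  ∑ e ∈ E, 1 / ((e : ℝ) * Real.log ((Y : ℝ) / e))

/-- the admissible sets `E` -/
def okE (W R Y : ℕ) (E : Finset ℕ) : Prop :=
  ∀ e ∈ E, 1 ≤ e ∧ e ^ 8 ≤ Y ∧ e.Coprime W ∧ ∀ p ∈ PS W R, ¬ p ∣ e

open Classical in
/-- (FLI) the fundamental lemma for an arithmetic progression in an interval -/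
def FLI : Prop := ∃ C : ℕ, 1 ≤ C ∧ ∀ κ b W q : ℕ, C * (κ + 1) ≤ b → 1 ≤ W →
  (∀ p : ℕ, p.Prime → p ≤ C * (κ + 1) → p ∣ W) → 1 ≤ q →
  ∀ u v J a : ℕ, u ≤ v → (∀ p ∈ PS W (2 ^ 2 ^ J), ¬ p ∣ q) →
    ∀ Om : ℕ → Finset ℕ, (∀ p ∈ PS W (2 ^ 2 ^ J), (Om p).card = κ ∧ ∀ c ∈ Om p, c < p) →
    |(((Ioc u v).filter (fun n => n % q = a % q ∧
        ∀ p ∈ PS W (2 ^ 2 ^ J), n % p ∉ Om p)).card : ℝ) -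
      (((v : ℝ) - u) / q) * PIj W (2 ^ 2 ^ J) κ| ≤
      (1 / 2 : ℝ) ^ b * ((((v : ℝ) - u) / q) * PIj W (2 ^ 2 ^ J) κ) +
        ((2 : ℝ) ^ 2 ^ J) ^ (C * b)

/-- (PRA) the identity between the products -/
def PRA : Prop := ∀ W R m : ℕ, 1 ≤ m → PIj W R m = PIj W R 1 * PI1 W R (m - 1)

/-- (PRB) upper bound for `∏ (1 - 1 / p)` -/
def PRB : Prop := ∀ W R : ℕ, 1 ≤ W → 2 ≤ R →
  PIj W R 1 * Real.log R * Nat.totient W ≤ W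

/-- (PRC) lower bound for `∏ (1 - m / p)` -/
def PRC : Prop := ∀ m W : ℕ, 1 ≤ W → (∀ p : ℕ, p.Prime → p ≤ 2 * (m + 1) → p ∣ W) →
  ∃ B R₀ : ℕ, ∀ R : ℕ, R₀ ≤ R → 1 / Real.log R ^ B ≤ PIj W R m

/-- (GRP) products of primes `≡ 1 (mod M)` -/
def GRP : Prop := ∀ M k B : ℕ, 1 ≤ M → ∃ H J₀ : ℕ, ∀ J : ℕ, J₀ ≤ J → ∀ c < k, ∃ E : Finset ℕ,
  (∀ e ∈ E, Squarefree e ∧ ArithmeticFunction.cardFactors e = c + 1 ∧ e ≤ (2 ^ 2 ^ J) ^ H ∧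
    ∀ p : ℕ, p.Prime → p ∣ e → 2 ^ 2 ^ J < p ∧ p % M = 1 % M) ∧
  (B : ℝ) ≤ ∑ e ∈ E, (1 : ℝ) / e

/-- (S0P) the number of sieved pairs -/
def S0P : Prop := ∃ C : ℕ, 1 ≤ C ∧ ∀ m b W K : ℕ, 1 ≤ m → C * (m + 1) ≤ b → 1 ≤ W →
  (∀ p : ℕ, p.Prime → p ≤ C * (m + 1) → p ∣ W) → W * m * 2 ^ (b + 4) ≤ K →
  ∃ Y₀ : ℕ, ∀ Y J : ℕ, Y₀ ≤ Y → (2 ^ 2 ^ J) ^ (C * b) ≤ Y →
    |((SZ W m (2 ^ 2 ^ J) (Y / K) Y).card : ℝ) -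
      (((Y / K : ℕ) : ℝ) * Y / W) * (PIj W (2 ^ 2 ^ J) 1 * PIj W (2 ^ 2 ^ J) m)| ≤
      16 * (1 / 2 : ℝ) ^ b *
        ((((Y / K : ℕ) : ℝ) * Y / W) * (PIj W (2 ^ 2 ^ J) 1 * PIj W (2 ^ 2 ^ J) m))

open Classical in
/-- (S1P) the number of sieved pairs with one of the forms in `A_E` -/
def S1P : Prop := ∃ C : ℕ, 1 ≤ C ∧ ∀ m b W K : ℕ, 1 ≤ m → C * (m + 1) ≤ b → 1 ≤ W →
  (∀ p : ℕ, p.Prime → p ≤ C * (m + 1) → p ∣ W) → W * m * 2 ^ (b + 4) ≤ K →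
  ∃ Y₀ : ℕ, ∀ Y J : ℕ, Y₀ ≤ Y → (2 ^ 2 ^ J) ^ (C * b) ≤ Y →
    ∀ (E : Finset ℕ) (i : ℕ), okE W (2 ^ 2 ^ J) Y E → i < m →
    |(((SZ W m (2 ^ 2 ^ J) (Y / K) Y).filter
        (fun z => inA W E (z.2 - W * (i + 1) * z.1))).card : ℝ) -
      al E Y * (((Y / K : ℕ) : ℝ) * Y / Nat.totient W) * PIj W (2 ^ 2 ^ J) m| ≤
      16 * (1 / 2 : ℝ) ^ b *
        (al E Y * (((Y / K : ℕ) : ℝ) * Y / Nat.totient W) * PIj W (2 ^ 2 ^ J) m)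

open Classical in
/-- (S2P) the number of sieved pairs with two of the forms in `A_E`, `A_E'`: upper bound -/
def S2P : Prop := ∃ C : ℕ, 1 ≤ C ∧ ∀ m b W K : ℕ, 1 ≤ m → C * (m + 1) ≤ b → 1 ≤ W →
  (∀ p : ℕ, p.Prime → p ≤ C * (m + 1) → p ∣ W) → W * m * 2 ^ (b + 4) ≤ K →
  ∃ Y₀ : ℕ, ∀ Y J : ℕ, Y₀ ≤ Y → (2 ^ 2 ^ J) ^ (C * b) ≤ Y →
    ∀ (E E' : Finset ℕ) (i i' : ℕ), okE W (2 ^ 2 ^ J) Y E → okE W (2 ^ 2 ^ J) Y E' →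
    i < m → i' < m → i ≠ i' →
    (((SZ W m (2 ^ 2 ^ J) (Y / K) Y).filter
        (fun z => inA W E (z.2 - W * (i + 1) * z.1) ∧
          inA W E' (z.2 - W * (i' + 1) * z.1))).card : ℝ) ≤
      (1 + 16 * (1 / 2 : ℝ) ^ b) * (al E Y * al E' Y *
        (((Y / K : ℕ) : ℝ) * Y * W / (Nat.totient W : ℝ) ^ 2) * PI1 W (2 ^ 2 ^ J) (m - 1))

/-- (SHP) the shape lemma -/
def SHP : Prop := ∀ k M : ℕ, 1 ≤ k → 1 ≤ M → ∃ m W₀ r : ℕ, 1 ≤ m ∧ 1 ≤ W₀ ∧ 1 ≤ r ∧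
  (∀ p : ℕ, p.Prime → p ≤ m → p ∣ W₀) ∧
  ∀ W : ℕ, W₀ ∣ W → 1 ≤ W → ∃ Y₀ : ℕ, ∀ Y : ℕ, Y₀ ≤ Y →
    ∀ (I : Fin k → Finset (Fin m)) (c : Fin k → Fin m → Fin k), (∀ t, m ≤ 2 * (I t).card) →
    ∃ x y : ℕ, 0 < x ∧ x ≤ Y ∧ Y < y ∧ y ≤ 2 * Y ∧ y % W = 1 % W ∧ x.Coprime y ∧
      2 * W * m * x ≤ y ∧
      ∀ t, ∃ i ∈ I t, Squarefree (y - W * ((i : ℕ) + 1) * x) ∧
        ArithmeticFunction.cardFactors (y - W * ((i : ℕ) + 1) * x) = (c t i : ℕ) + 2 ∧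
        ∀ q : ℕ, q.Prime → q ∣ y - W * ((i : ℕ) + 1) * x → q % M = 1 % M ∧ Y < q ^ r

end Pool.Agent.TH423.SH
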